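import Pool.Agent.Helper91.FS.Goals2
import Mathlib.NumberTheory.LegendreSymbol.QuadraticChar.Basic

/-!
Packet FS-NORX: `PGL(2, K)` normalises every group between `PSL(2, K)` and `PΓL(2, K)`.
-/

set_option autoImplicit false

namespace Pool.Agent.Helper87.FS

open Pool.Agent.Helper47.SR (Grp)
open Pool.Agent.Helper91.FS
open scoped MatrixGroups

lemma exists_sq {K : Type} [Field K] [Finite K] (φ : K ≃+* K) (a : K) (ha : a ≠ 0) :
    ∃ c : K, c ≠ 0 ∧ c * c * (a * (φ a)⁻¹) = 1 := by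
  classical
  have : Fintype K := Fintype.ofFinite K
  have hφ : φ a ≠ 0 := by simpa using ha
  have h1 : IsSquare (φ a) ↔ IsSquare a := by
    constructor
    · rintro ⟨r, hr⟩
      refine ⟨φ.symm r, ?_⟩
      rw [← map_mul, ← hr, RingEquiv.symm_apply_apply]
    · rintro ⟨r, hr⟩
      refine ⟨φ r, ?_⟩
      rw [← map_mul, ← hr]
  have h2 : IsSquare (φ a * a) := by
    by_cases h : IsSquare a
    · exact (h1.mpr h).mul h
    · rw [← quadraticChar_one_iff_isSquare (mul_ne_zero hφ ha), map_mul]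
      have h3 : quadraticChar K a = -1 := by
        rcases quadraticChar_dichotomy ha with h3 | h3
        · exact absurd ((quadraticChar_one_iff_isSquare ha).mp h3) h
        · exact h3
      have h4 : quadraticChar K (φ a) = -1 := by
        rcases quadraticChar_dichotomy hφ with h4 | h4
        · exact absurd (h1.mp ((quadraticChar_one_iff_isSquare hφ).mp h4)) h
        · exact h4
      rw [h3, h4]
      norm_num
  obtain ⟨r, hr⟩ := h2
  have hr0 : r ≠ 0 := by
    rintro rfl
    rw [mul_zero] at hr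
    exact (mul_ne_zero hφ ha) hr
  refine ⟨r * a⁻¹, mul_ne_zero hr0 (inv_ne_zero ha), ?_⟩
  have : r * a⁻¹ * (r * a⁻¹) * (a * (φ a)⁻¹) = (r * r) * (a⁻¹ * (a⁻¹ * a) * (φ a)⁻¹) := by ring
  rw [this, ← hr, inv_mul_cancel₀ ha]
  field_simp

/-- scalar matrix -/
noncomputable def sc {K : Type} [Field K] (c : K) (hc : c ≠ 0) : GL (Fin 2) K :=
  Matrix.GeneralLinearGroup.mkOfDetNeZero !![c, 0; 0, c] (by
    rw [Matrix.det_fin_two_of]
    simpa using hc)

lemma sc_smul {K : Type} [Field K] [DecidableEq K] (c : K) (hc : c ≠ 0) (x : OnePoint K) :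
    sc c hc • x = x := by
  cases x with
  | infty =>
    rw [OnePoint.smul_infty_eq_self_iff]
    simp [sc, Matrix.GeneralLinearGroup.mkOfDetNeZero]
  | coe x =>
    rw [OnePoint.smul_some_eq_ite]
    have : c * x / c = x := by field_simp
    simp [sc, Matrix.GeneralLinearGroup.mkOfDetNeZero, hc]

lemma sc_det {K : Type} [Field K] (c : K) (hc : c ≠ 0) :
    (sc c hc : Matrix (Fin 2) (Fin 2) K).det = c * c := by
  simp [sc, Matrix.GeneralLinearGroup.mkOfDetNeZero, Matrix.det_fin_two]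

theorem goal_NORX : Pool.Agent.Helper91.FS.Goal_NORX := by
  intro n K _ _ e G hG1 hG2 π hπ γ hγ
  have hfin : Finite K := by
    have h1 : Finite (OnePoint K) := Finite.of_equiv _ e.symm
    exact Finite.of_injective (fun x : K => (x : OnePoint K)) OnePoint.coe_injective
  obtain ⟨g, hg⟩ := hπ
  obtain ⟨h, φ, hh⟩ := hG2 hγ
  have hginv : ∀ x, π⁻¹ (e x) = e (g⁻¹ • x) := by
    intro x
    rw [Equiv.Perm.inv_eq_iff_eq, hg, smul_inv_smul]
  let M : GL (Fin 2) K := g * h * (g⁻¹).map (φ : K →+* K) * h⁻¹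
  have hκ : ∀ y, (π * γ * π⁻¹ * γ⁻¹) (e y) = e (M • y) := by
    intro y
    obtain ⟨x, hx⟩ : ∃ x, h • OnePoint.map φ x = y := by
      refine ⟨OnePoint.map φ.symm (h⁻¹ • y), ?_⟩
      rw [omap_comp, RingEquiv.symm_trans_self, omap_id, smul_inv_smul]
    have h1 : γ⁻¹ (e y) = e x := by
      rw [Equiv.Perm.inv_eq_iff_eq, hh, hx]
    rw [Equiv.Perm.mul_apply, Equiv.Perm.mul_apply, Equiv.Perm.mul_apply, h1, hginv, hh, hg,
      omap_smul, ← hx]
    simp only [M, mul_smul, inv_smul_smul]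
  have hdet : (M : Matrix (Fin 2) (Fin 2) K).det =
      (g : Matrix (Fin 2) (Fin 2) K).det * (φ (g : Matrix (Fin 2) (Fin 2) K).det)⁻¹ := by
    have h1 : Matrix.GeneralLinearGroup.det M = Matrix.GeneralLinearGroup.det g *
        (Units.map (φ : K →* K) (Matrix.GeneralLinearGroup.det g))⁻¹ := by
      simp only [M, map_mul, map_inv, Matrix.GeneralLinearGroup.map_det]
      rw [mul_right_comm, mul_right_comm _ _ (Matrix.GeneralLinearGroup.det h)⁻¹,
        inv_mul_cancel_right]
      rfl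
    have h2 := congrArg (fun u : Kˣ => (u : K)) h1
    simpa using h2
  have hdg : (g : Matrix (Fin 2) (Fin 2) K).det ≠ 0 := by
    have := (Matrix.GeneralLinearGroup.det g).ne_zero
    simpa using this
  obtain ⟨c, hc, hc2⟩ := exists_sq φ _ hdg
  have hmem : π * γ * π⁻¹ * γ⁻¹ ∈ psl e := by
    refine ⟨sc c hc * M, ?_, ?_⟩
    · rw [Units.val_mul, Matrix.det_mul, sc_det, hdet, hc2]
    · intro x
      rw [hκ, mul_smul (sc c hc) M x, sc_smul]
  have := G.mul_mem (hG1 hmem) hγ
  simpa using this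

end Pool.Agent.Helper87.FS
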